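import Pool.Agent.H74.NB.Child
import Pool.Agent.H36.BP.Defs

/-!
# LA Tay: every rescaling of a sequence with a limit of order `M` is a polynomial curve of degree at most `M`

If `Φ n → (z - w) ^ M • G z`, `G w ≠ 0`, `b n → w`, `ρ n → 0`, then `t n • Φ n (b n + ρ n ζ)` converges, for suitable `t n ≠ 0`, along the
ultrafilter to a vector of polynomials of degree at most `M`, not identically `0`.
-/

set_option autoImplicit false

open Topology Filter Metric Polynomial

noncomputable section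

namespace Pool.Agent.H12.LA

open Pool.Agent.H74.NB
open Pool.Agent.H36.BP (EN)

variable {N : ℕ} {𝒰 : Ultrafilter ℕ}

theorem exists_taylor {Φ : ℕ → ℂ → EN N} {w : ℂ} {M : ℕ} {G : ℂ → EN N} {r : ℝ} (hr : 0 < r)
    (hΦ : ∀ᶠ n in (𝒰 : Filter ℕ), DifferentiableOn ℂ (Φ n) (ball w r)) (hG : DifferentiableOn ℂ G (ball w r)) (hG0 : G w ≠ 0)
    (hc : CC 𝒰 Φ (fun z => (z - w) ^ M • G z) (ball w r)) {b : ℕ → ℂ} {ρ : ℕ → ℝ} (hb : Tendsto b 𝒰 (𝓝 w))
    (hρ : ∀ᶠ n in (𝒰 : Filter ℕ), 0 < ρ n) (hρ0 : Tendsto ρ 𝒰 (𝓝 0)) :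
    ∃ (t : ℕ → ℂ) (p : Fin (N + 1) → ℂ[X]), (∀ᶠ n in (𝒰 : Filter ℕ), t n ≠ 0) ∧ (∀ i, (p i).natDegree ≤ M) ∧ (∃ i, p i ≠ 0) ∧
      CC 𝒰 (fun n ζ => t n • Φ n (b n + ρ n * ζ)) (fun ζ => (WithLp.toLp 2 (fun i => (p i).eval ζ) : EN N)) Set.univ := by
  classical
  -- the Taylor coefficients
  set A : ℕ → ℕ → EN N := fun j n => it (Φ n) (fun _ => b n) j (b n) with hA
  have hcc := cc_it hr (a := fun _ n => b n) (fun _ => hb) hΦ hG hc
  obtain ⟨-, hM⟩ := hcc M 0 (by omega)
  have hM' : CC 𝒰 (fun n => it (Φ n) (fun _ => b n) M) G (ball w r) := hM.congr fun z _ => by rw [pow_zero, one_smul]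
  -- the normalisation
  set s : ℕ → ℝ := fun n => (∑ j ∈ Finset.range M, ρ n ^ j * ‖A j n‖) + ρ n ^ M with hs
  have hspos : ∀ᶠ n in (𝒰 : Filter ℕ), 0 < s n := by
    filter_upwards [hρ] with n hn
    have h1 : 0 ≤ ∑ j ∈ Finset.range M, ρ n ^ j * ‖A j n‖ := Finset.sum_nonneg fun j _ => by positivity
    have h2 : 0 < ρ n ^ M := pow_pos hn M
    rw [hs]
    simp only
    linarith
  -- the normalised coefficients
  have hcoef : ∀ j, ∃ α : EN N, j ∈ Finset.range M → Tendsto (fun n => ((ρ n ^ j / s n : ℝ) : ℂ) • A j n) 𝒰 (𝓝 α) := by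
    intro j
    by_cases hj : j ∈ Finset.range M
    · obtain ⟨α, -, h1⟩ := exists_lim (𝒰 := 𝒰) (isCompact_closedBall (0 : EN N) 1)
        (x := fun n => ((ρ n ^ j / s n : ℝ) : ℂ) • A j n) (by
        filter_upwards [hρ, hspos] with n h1 h2
        rw [mem_closedBall_zero_iff, norm_smul, Complex.norm_real, Real.norm_of_nonneg (by positivity), div_mul_eq_mul_div,
          div_le_one h2]
        have h3 : ρ n ^ j * ‖A j n‖ ≤ ∑ j ∈ Finset.range M, ρ n ^ j * ‖A j n‖ :=
          Finset.single_le_sum (f := fun j => ρ n ^ j * ‖A j n‖) (fun j _ => by positivity) hj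
        have h4 : 0 < ρ n ^ M := pow_pos h1 M
        rw [hs]
        simp only
        linarith)
      exact ⟨α, fun _ => h1⟩
    · exact ⟨0, fun h => absurd h hj⟩
  choose α hα using hcoef
  obtain ⟨κ, -, hκ⟩ := exists_lim (𝒰 := 𝒰) (isCompact_closedBall (0 : ℝ) 1) (x := fun n => ρ n ^ M / s n) (by
    filter_upwards [hρ, hspos] with n h1 h2
    rw [mem_closedBall_zero_iff, Real.norm_of_nonneg (by positivity), div_le_one h2, hs]
    have h3 : 0 ≤ ∑ j ∈ Finset.range M, ρ n ^ j * ‖A j n‖ := Finset.sum_nonneg fun j _ => by positivity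
    simp only
    linarith)
  -- the sum of the norms is one
  have hsum : (∑ j ∈ Finset.range M, ‖α j‖) + κ = 1 := by
    have h1 : Tendsto (fun n => (∑ j ∈ Finset.range M, ‖((ρ n ^ j / s n : ℝ) : ℂ) • A j n‖) + ρ n ^ M / s n) 𝒰
        (𝓝 ((∑ j ∈ Finset.range M, ‖α j‖) + κ)) := (tendsto_finsetSum _ fun j hj => (hα j hj).norm).add hκ
    refine tendsto_nhds_unique h1 (tendsto_const_nhds.congr' ?_)
    filter_upwards [hρ, hspos] with n h2 h3
    have h4 : ∀ j ∈ Finset.range M, ‖((ρ n ^ j / s n : ℝ) : ℂ) • A j n‖ = ρ n ^ j * ‖A j n‖ / s n := by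
      intro j _
      rw [norm_smul, Complex.norm_real, Real.norm_of_nonneg (by positivity)]
      ring
    rw [Finset.sum_congr rfl h4, ← Finset.sum_div, ← add_div]
    exact (div_self h3.ne').symm
  -- the limit
  set q : ℂ → EN N := fun ζ => (∑ j ∈ Finset.range M, ζ ^ j • α j) + ζ ^ M • ((κ : ℂ) • G w) with hq
  set p : Fin (N + 1) → ℂ[X] := fun i => (∑ j ∈ Finset.range M, C (α j i) * X ^ j) + C ((κ : ℂ) * G w i) * X ^ M with hp
  have hpq : ∀ ζ i, (p i).eval ζ = q ζ i := by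
    intro ζ i
    simp only [hp, hq, eval_add, eval_finsetSum, eval_mul, eval_C, eval_pow, eval_X, PiLp.add_apply, PiLp.smul_apply, smul_eq_mul,
      WithLp.ofLp_sum, Finset.sum_apply]
    congr 1
    · exact Finset.sum_congr rfl fun j _ => mul_comm _ _
    · ring
  have hqe : ∀ ζ, q ζ = (WithLp.toLp 2 (fun i => (p i).eval ζ) : EN N) := by
    intro ζ
    ext i
    exact (hpq ζ i).symm
  refine ⟨fun n => ((s n : ℂ))⁻¹, p, ?_, ?_, ?_, ?_⟩
  · filter_upwards [hspos] with n hn
    exact inv_ne_zero (by exact_mod_cast hn.ne')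
  · intro i
    refine (natDegree_add_le _ _).trans (max_le ?_ ?_)
    · refine natDegree_sum_le_of_forall_le _ _ fun j hj => ?_
      refine (natDegree_C_mul_X_pow_le _ _).trans ?_
      exact (Finset.mem_range.mp hj).le
    · exact natDegree_C_mul_X_pow_le _ _
  · -- not zero: otherwise all the coefficients vanish
    by_contra hcon
    push Not at hcon
    have hco : ∀ j, (∀ i, (p i).coeff j = 0) := fun j i => by rw [hcon i, coeff_zero]
    have hcoe : ∀ i j, (p i).coeff j = (if j < M then α j i else 0) + if j = M then (κ : ℂ) * G w i else 0 := by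
      intro i j
      simp only [hp, coeff_add, finsetSum_coeff, coeff_C_mul, coeff_X_pow, mul_ite, mul_one, mul_zero]
      congr 1
      rw [Finset.sum_ite_eq]
      simp only [Finset.mem_range]
    have h1 : ∀ j ∈ Finset.range M, α j = 0 := by
      intro j hj
      have hj' := Finset.mem_range.mp hj
      ext i
      have h2 := hco j i
      rw [hcoe, if_pos hj', if_neg hj'.ne, add_zero] at h2
      exact h2
    have h2 : (κ : ℂ) • G w = 0 := by
      ext i
      have h3 := hco M i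
      rw [hcoe, if_neg (lt_irrefl M), if_pos rfl, zero_add] at h3
      exact h3
    have h3 : κ = 0 := by
      rcases smul_eq_zero.mp h2 with h | h
      · exact_mod_cast h
      · exact absurd h hG0
    rw [h3, Finset.sum_eq_zero (fun j hj => by rw [h1 j hj, norm_zero]), add_zero] at hsum
    exact zero_ne_one hsum
  · intro ζ₀ _ ζ hζ
    have hbz : Tendsto (fun n => b n + ρ n * ζ n) 𝒰 (𝓝 w) := by
      have h1 : Tendsto (fun n => b n + ρ n * ζ n) 𝒰 (𝓝 (w + (0 : ℂ) * ζ₀)) :=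
        hb.add (((Complex.continuous_ofReal.tendsto' 0 0 (by simp)).comp hρ0).mul hζ)
      rwa [zero_mul, add_zero] at h1
    have h2 := hM' w (mem_ball_self hr) _ hbz
    have h3 : Tendsto (fun n => (∑ j ∈ Finset.range M, ζ n ^ j • (((ρ n ^ j / s n : ℝ) : ℂ) • A j n)) +
        ζ n ^ M • (((ρ n ^ M / s n : ℝ) : ℂ) • it (Φ n) (fun _ => b n) M (b n + ρ n * ζ n))) 𝒰 (𝓝 (q ζ₀)) := by
      refine (tendsto_finsetSum _ fun j hj => (hζ.pow j).smul (hα j hj)).add ((hζ.pow M).smul (Tendsto.smul ?_ h2))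
      exact (Complex.continuous_ofReal.tendsto κ).comp hκ
    show Tendsto (fun n => ((s n : ℂ))⁻¹ • Φ n (b n + ρ n * ζ n)) 𝒰 (𝓝 (WithLp.toLp 2 (fun i => (p i).eval ζ₀) : EN N))
    rw [← hqe]
    refine h3.congr fun n => ?_
    have h4 := newton (Φ n) (fun _ => b n) M (b n + ρ n * ζ n)
    simp only [Finset.prod_const, Finset.card_range, add_sub_cancel_left] at h4
    rw [h4, smul_add, Finset.smul_sum]
    congr 1
    · refine Finset.sum_congr rfl fun j _ => ?_
      rw [smul_smul, smul_smul, mul_pow]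
      congr 1
      push_cast
      ring
    · rw [smul_smul, smul_smul, mul_pow]
      congr 1
      push_cast
      ring

end Pool.Agent.H12.LA
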